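import Pool.Agent.T9h57.GP.GrMain
import Pool.Agent.T9h57.GP.Conv

/-!
From natural to real numbers: the lower bound for the moduli up to `x ^ (7 / 10 - ρ)` with a small radical.
-/

set_option autoImplicit false

namespace Pool.Agent.T9h57.GP

open Finset
open Pool.Agent.R460.GS
open Pool.Agent.Y883.T4 (badc)
open Pool.Agent.T9h57.PK (rad)

lemma log_ge_one {n : ℕ} (hn : 3 ≤ n) : 1 ≤ Real.log n := by
  have h3 : (3 : ℝ) ≤ n := by exact_mod_cast hn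
  rw [Real.le_log_iff_exp_le (by linarith)]
  have := Real.exp_one_lt_d9
  linarith

lemma badc_mono {P P' : ℕ → Prop} (h : ∀ n, P' n → P n) (N q a : ℕ) : badc P N q a ⊆ badc P' N q a := by
  classical
  intro n hn
  unfold badc at hn ⊢
  rw [mem_filter] at hn ⊢
  exact ⟨hn.1, hn.2.1, hn.2.2.1, fun hw => hn.2.2.2 (h n hw)⟩

/-- moduli with a small radical: an arbitrary consequence of the lower bound in windows -/
theorem class_small_low (Q : ℕ → Prop) (W : ℕ)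
    (hQ : ∃ n₀ : ℕ, ∀ n : ℕ, n₀ ≤ n → 2 ∣ n → WinL W n → Q n)
    (ρ : ℝ) (hρ : 0 < ρ) (A T : ℕ) :
    ∃ x₀ : ℝ, ∀ x : ℝ, x₀ ≤ x → ∀ q : ℕ, 1 ≤ q → (q : ℝ) ≤ x ^ (7 / 10 - ρ) →
      (rad q : ℝ) ≤ Real.log x ^ T → ∀ a : ℤ,
        ({n : ℕ | 0 < n ∧ (n : ℝ) ≤ x ∧ 2 ∣ n ∧ (n : ℤ) ≡ a [ZMOD q] ∧ ¬ Q n}).Finite ∧
        (({n : ℕ | 0 < n ∧ (n : ℝ) ≤ x ∧ 2 ∣ n ∧ (n : ℤ) ≡ a [ZMOD q] ∧ ¬ Q n}.ncard : ℕ) : ℝ) ≤
          x / (q * Real.log x ^ A) := by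
  classical
  obtain ⟨n₁, hn₁⟩ := hQ
  refine conv_real (by norm_num) (fun n => 3 ≤ n → WinL W n) Q ⟨n₁ + 3, fun n hn h2 hw =>
    hn₁ n (by omega) h2 (hw (by omega))⟩ (fun ρ hρ A T => ?_) ρ hρ A T
  obtain ⟨N₀, h⟩ := sl_all ρ hρ (A + W) T
  refine ⟨N₀ + 3, fun N hN q hq hqN hr a => ?_⟩
  have h1 := h N (by omega) q hq hqN hr a
  have hsub : badc (fun n => 3 ≤ n → WinL W n) N q a ⊆ badc (WinL (A + W)) N q a :=
    badc_mono (fun n hw h3 => winL_mono (show W ≤ A + W by omega) (log_ge_one h3) hw) N q a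
  have h2 : ((badc (fun n => 3 ≤ n → WinL W n) N q a).card : ℝ) ≤ ((badc (WinL (A + W)) N q a).card : ℝ) := by
    exact_mod_cast card_le_card hsub
  refine h2.trans (h1.trans ?_)
  have hL : 1 ≤ Real.log N := log_ge_one (by omega)
  have hq0 : (0 : ℝ) < q := by exact_mod_cast hq
  apply div_le_div_of_nonneg_left (Nat.cast_nonneg _) (by positivity)
  exact mul_le_mul_of_nonneg_left (pow_le_pow_right₀ hL (by omega)) hq0.le

end Pool.Agent.T9h57.GP
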