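import Pool.Agent.T9h57.GP.Core
import Pool.Agent.R460.GH.Err
import Pool.Agent.R460.GR.D6

set_option autoImplicit false

/-! The error terms for regular moduli: the difference between the von Mangoldt function and the sieve model. -/

namespace Pool.Agent.T9h57.GP

open Finset
open Pool.Agent.R460.GS
open Pool.Agent.R460.GH (FF_eq bd_LS bd_FF nc_FF ap_FF maj_FF min_FF mHU nHU nLA mLA)
open Pool.Agent.R460.GR (RegAt cs_zero)
open Pool.Agent.H807R2.Dav (ee)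
open Pool.Agent.H373R2.T7 (lamz Vz pz lamz_ap lam_ap)
open Pool.Agent.Y883.T3 (lsh)
open Pool.Agent.Y883.GJ
open Pool.Agent.Y614.GJ.Core (ev_log)

/-- the prime sums over the characters of a large conductor are small -/
def RegL (N C K U q : ℕ) : Prop :=
  ∀ j : ℕ, ((j + 1 : ℕ) : ℝ) ≤ Real.log N ^ C → ∀ χ : DirichletCharacter ℂ ((j + 1) * q),
    Real.log N ^ K < (χ.conductor : ℝ) → ∀ y : ℕ, y ≤ N →
    ‖∑ n ∈ Icc 1 y, LA n * χ (n : ZMod ((j + 1) * q))‖ ≤ N / Real.log N ^ U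

/-- the regular moduli -/
lemma reg_FF {N U₁ C K z r q : ℕ} {ρ : ℝ} (hN1 : 1 ≤ N) (hL : 16 ≤ Real.log N)
    (hqC : (q : ℝ) * Real.log N ^ C ≤ (N : ℝ) ^ (7 / 10 - ρ)) (hq1 : 1 ≤ q)
    (hH : ∀ (q : ℕ) [NeZero q], (q : ℝ) ≤ (N : ℝ) ^ (7 / 10 - ρ) →
      ∀ η : ℝ, |η| ≤ Real.log N ^ C / N → ∀ y : ℕ, y ≤ N →
      ∀ S : Finset (DirichletCharacter ℂ q), 1 ∉ S →
        ∑ χ ∈ S, ‖cs q y (LS z r) η χ‖ ^ 2 ≤ (N : ℝ) ^ 2 / Real.log N ^ (2 * (U₁ + C + 4)))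
    (hR : RegL N C K (U₁ + C + 4) q) : RegAt N C K U₁ (FF z r) q := by
  classical
  intro j hj χ hχ η hη y hy
  have hq0 : NeZero ((j + 1) * q) := ⟨by positivity⟩
  have hqr : (((j + 1) * q : ℕ) : ℝ) ≤ (N : ℝ) ^ (7 / 10 - ρ) := by
    rw [Nat.cast_mul]
    calc ((j + 1 : ℕ) : ℝ) * q ≤ Real.log N ^ C * q := by gcongr
      _ = q * Real.log N ^ C := mul_comm _ _
      _ ≤ _ := hqC
  have hR' := hR j hj χ hχ
  obtain ⟨U, hU⟩ : ∃ U, U = U₁ + C + 4 := ⟨_, rfl⟩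
  rw [← hU] at hH hR'
  obtain ⟨L, hLd⟩ : ∃ L, L = Real.log (N : ℝ) := ⟨_, rfl⟩
  have hL1 : 1 ≤ L := by linarith
  have hL0 : 0 < L := by linarith
  have hN0 : (0 : ℝ) < N := by exact_mod_cast hN1
  have hcond1 : 1 < χ.conductor := by
    have : (1 : ℝ) < χ.conductor := lt_of_le_of_lt (one_le_pow₀ (by rw [← hLd]; exact hL1)) hχ
    exact_mod_cast this
  have hχ1 : (1 : DirichletCharacter ℂ ((j + 1) * q)) ∉ ({χ} : Finset (DirichletCharacter ℂ ((j + 1) * q))) := by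
    rw [mem_singleton]
    intro h
    rw [← h, DirichletCharacter.conductor_one] at hcond1
    omega
  have hX : ∀ y' : ℕ, y' ≤ N → ‖∑ n ∈ Icc 1 y', FF z r n * χ (n : ZMod ((j + 1) * q))‖ ≤ 3 * (N / L ^ U) := by
    intro y' hy'
    have h1 := hR' y' hy'
    have h3 := hH ((j + 1) * q) hqr 0 (by rw [abs_zero, ← hLd]; positivity) y' hy' {χ} hχ1
    rw [sum_singleton, cs_zero, ← hLd] at h3
    have h4 : ‖∑ n ∈ Icc 1 y', LS z r n * χ (n : ZMod ((j + 1) * q))‖ ≤ N / L ^ U := by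
      have h5 : (N : ℝ) ^ 2 / L ^ (2 * U) = (N / L ^ U) ^ 2 := by
        rw [div_pow, ← pow_mul, mul_comm U 2]
      rw [h5] at h3
      exact (pow_le_pow_iff_left₀ (norm_nonneg _) (by positivity) two_ne_zero).1 h3
    rw [← hLd] at h1
    have h5 : ∑ n ∈ Icc 1 y', FF z r n * χ (n : ZMod ((j + 1) * q)) =
        ∑ n ∈ Icc 1 y', LA n * χ (n : ZMod ((j + 1) * q)) - ∑ n ∈ Icc 1 y', LS z r n * χ (n : ZMod ((j + 1) * q)) := by
      rw [← sum_sub_distrib]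
      refine sum_congr rfl fun n _ => ?_
      rw [FF_eq]
      ring
    rw [h5]
    refine (norm_sub_le _ _).trans ?_
    have : 0 ≤ (N : ℝ) / L ^ U := by positivity
    linarith
  have h6 := cs_abel hy (FF z r) η χ _ hX
  refine h6.trans ?_
  rw [← hLd] at hη ⊢
  rw [← hLd] at hL
  have h2 : 1 + 7 * |η| * y ≤ 8 * L ^ C := by
    have h3 : |η| * y ≤ L ^ C := by
      calc |η| * y ≤ (L ^ C / N) * N := by
            apply mul_le_mul hη (by exact_mod_cast hy) (Nat.cast_nonneg _) (by positivity)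
        _ = L ^ C := by field_simp
    have h4 : 1 ≤ L ^ C := one_le_pow₀ hL1
    linarith
  calc 3 * (N / L ^ U) * (1 + 7 * |η| * y) ≤ 3 * (N / L ^ U) * (8 * L ^ C) := by gcongr
    _ = N / L ^ U₁ * (24 / L ^ 4) := by
        rw [hU, pow_add, pow_add]
        field_simp
        ring
    _ ≤ N / L ^ U₁ * 1 := by
        have : 24 / L ^ 4 ≤ 1 := by
          rw [div_le_one (by positivity)]
          have : (16 : ℝ) ^ 4 ≤ L ^ 4 := pow_le_pow_left₀ (by norm_num) hL 4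
          linarith
        gcongr
    _ = _ := mul_one _

/-- ERRG: all error terms for the regular moduli -/
def ErrGStm : Prop := ∀ (A U₀ : ℕ) (ρ : ℝ), 0 < ρ → ∃ C U₂ : ℕ, ∀ K : ℕ, ∃ B : ℕ, ∀ E : ℕ, ∃ N₀ : ℕ,
  ∀ N : ℕ, N₀ ≤ N → ∀ z : ℕ,
  Real.log N ^ B ≤ z → (z : ℝ) ≤ Real.log N ^ E → ∃ r : ℕ, Par U₀ N z r ∧
    ∑ n ∈ Icc 1 N, |lamz z n - lsh z r n| ≤ N / Real.log N ^ U₀ ∧
    ∀ F : ℕ → ℂ, (F = LA ∨ F = LS z r) →
    ∀ (q : ℕ) [NeZero q], (q : ℝ) ≤ (N : ℝ) ^ (2 / 3 - ρ) → RegL N C K U₂ q → ∀ a : ZMod q,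
    ∀ y₁ y₂ : ℕ, y₁ ≤ N → y₂ ≤ N →
      ∑ n ∈ (Icc 1 (2 * N)).filter (fun n : ℕ => (n : ZMod q) = a),
        ‖cv F (FF z r) y₁ y₂ n‖ ^ 2 ≤ (N : ℝ) ^ 3 / (q * Real.log N ^ A)

theorem err_G (hCore : Core3Stm) (hL2 : L2Stm) (hB3 : Pool.Agent.R460.GH.BilMaj3Stm)
    (hBm : BilMinStm) (hTM : TiMaj2Stm) (hTm : TiMinStm) (hLsh : LshStm) (hModel : ModelStm) : ErrGStm := by
  intro A U₀ ρ hρ
  have hρ2 : 0 < ρ / 2 := by positivity
  obtain ⟨A₁, hC1⟩ := hCore A (1 / 30 + ρ) (1 / 30 + ρ / 2) (by positivity) (by linarith)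
  obtain ⟨Cg, Ng, hg⟩ := nLA hL2 hBm (A₁ + 2) hρ2
  obtain ⟨Ch, Nh, hh⟩ := nHU hTm hLsh (A₁ + 2) (ρ := 1 / 30 + ρ / 2) (by positivity)
  obtain ⟨C, hC⟩ : ∃ C, C = max Cg Ch := ⟨_, rfl⟩
  obtain ⟨A₂, hC2⟩ := hC1 C
  obtain ⟨C₃, Nm1, hm1⟩ := mLA hL2 hB3 (A₂ + 2) C hρ2
  obtain ⟨Nm2, hm2⟩ := mHU hTM hLsh (A₂ + 2) C (ρ := 1 / 30 + ρ / 2) (by positivity)
  obtain ⟨Ur, hC3⟩ := hC2 C₃
  obtain ⟨Nm3, hm3⟩ := mHU hTM hLsh (2 * (Ur + C + 4)) C (ρ := 1 / 30 + ρ / 2) (by positivity)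
  refine ⟨C, Ur + C + 4, fun K => ?_⟩
  obtain ⟨U, Nc, hC4⟩ := hC3 K
  obtain ⟨U₁, hU₁⟩ : ∃ U₁, U₁ = max U₀ (U + 2) := ⟨_, rfl⟩
  obtain ⟨Bm, hBm⟩ := hModel U₁
  refine ⟨max Bm K, fun E => ?_⟩
  obtain ⟨Nmo, hmo⟩ := hBm E
  obtain ⟨Nl, hl⟩ := lamz_ap E (U + 2)
  obtain ⟨Na, ha⟩ := lam_ap K (U + 2)
  obtain ⟨Ne, hNe⟩ := Filter.eventually_atTop.1 (ev_log C (s := ρ / 2) (by positivity) 16)
  refine ⟨Ng + Nh + Nm1 + Nm2 + Nm3 + Nc + Nmo + Nl + Na + Ne + 1, fun N hN z hz1 hz2 => ?_⟩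
  have hN1 : 1 ≤ N := by omega
  have hN0 : (0 : ℝ) < N := by exact_mod_cast hN1
  obtain ⟨hLe, hLC⟩ := hNe N (by omega)
  have hL1 : 1 ≤ Real.log N := by linarith
  have hL2 : 2 ≤ Real.log N := by linarith
  have hzB : Real.log N ^ Bm ≤ z := (pow_le_pow_right₀ hL1 (le_max_left _ _)).trans hz1
  have hzK : Real.log N ^ K ≤ z := (pow_le_pow_right₀ hL1 (le_max_right _ _)).trans hz1
  have hz1' : 1 ≤ z := by
    have : (1 : ℝ) ≤ z := (one_le_pow₀ hL1).trans hz1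
    exact_mod_cast this
  obtain ⟨r, hPar, hsum⟩ := hmo N (by omega) z hzB hz2
  have hdiv : ∀ V : ℕ, V ≤ U₁ → (N : ℝ) / Real.log N ^ U₁ ≤ N / Real.log N ^ V := fun V hV =>
    div_le_div_of_nonneg_left (Nat.cast_nonneg _) (by positivity) (pow_le_pow_right₀ hL1 hV)
  have hU0 : U₀ ≤ U₁ := by rw [hU₁]; exact le_max_left _ _
  have hU2 : U + 2 ≤ U₁ := by rw [hU₁]; exact le_max_right _ _
  have hP0 := par_mono hL1 hU0 hPar
  have hP2 := par_mono hL1 hU2 hPar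
  refine ⟨r, hP0, hsum.trans (hdiv _ hU0), ?_⟩
  intro F hF q _ hq hReg a y₁ y₂ hy₁ hy₂
  -- the conditions of the core estimate
  have hMin : MinAt N (1 / 30 + ρ / 2) A₁ C (FF z r) := by
    rw [hC]
    exact min_FF hL2 (hg N (by omega)) (hh N (by omega) z r hPar.hD hPar.hV)
  have hMaj : MajAt N (1 / 30 + ρ / 2) A₂ C C₃ (FF z r) :=
    maj_FF hL2 (hm1 N (by omega)) (fun q _ hq => hm2 N (by omega) q hq z r hPar.hD hPar.hV)
  have hAp : ApAt N K U (FF z r) := by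
    refine ap_FF hL2 ?_ (hsum.trans (hdiv _ hU2)) (ha N (by omega))
    intro q hq hqK c y hy
    refine hl N (by omega) z hz1' hz2 q hq ?_ c y hy
    exact_mod_cast hqK.trans hzK
  have hNc : NcAt N U (FF z r) := nc_FF (par_mono hL1 (by omega) hP2)
  have hBdF : BdAt N F := by
    rcases hF with h | h
    · rw [h]; exact bd_LA hL1
    · rw [h]; exact bd_LS hPar (by linarith)
  have hq' : (q : ℝ) ≤ (N : ℝ) ^ (7 / 10 - (1 / 30 + ρ)) := by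
    have e : (7 / 10 - (1 / 30 + ρ) : ℝ) = 2 / 3 - ρ := by ring
    rw [e]
    exact hq
  have hqC : (q : ℝ) * Real.log N ^ C ≤ (N : ℝ) ^ (7 / 10 - (1 / 30 + ρ / 2)) := by
    calc (q : ℝ) * Real.log N ^ C ≤ (N : ℝ) ^ (7 / 10 - (1 / 30 + ρ)) * (N : ℝ) ^ (ρ / 2) := by gcongr
      _ = (N : ℝ) ^ (7 / 10 - (1 / 30 + ρ / 2)) := by
          rw [← Real.rpow_add hN0]
          congr 1
          ring
  have hRA : RegAt N C K Ur (FF z r) q :=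
    reg_FF hN1 hLe hqC (NeZero.one_le) (fun q _ hq => hm3 N (by omega) q hq z r hPar.hD hPar.hV) hReg
  exact hC4 N (by omega) F (FF z r) hBdF (bd_FF hPar (by linarith)) hMin hMaj hAp hNc q hq' hRA a y₁ y₂
    hy₁ hy₂

end Pool.Agent.T9h57.GP
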