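import Pool.Agent.T9h57.PK.Psi2
import Pool.Agent.T9h57.PK.Quad
import Pool.Agent.R460.GR.D6

set_option autoImplicit false

/-! Sums over the integers without small prime factors, twisted by characters to moduli with a small radical. -/

namespace Pool.Agent.T9h57.GP

open Finset Filter Topology
open Pool.Agent.R460.GS
open Pool.Agent.T9h57.PK (rad rad_pos main57 cL psi57a SumsAt sumsP)

/-- the indicator function of the integers without prime factors up to `Z` -/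
noncomputable def ff (Z n : ℕ) : ℂ := if ∀ p ∈ n.primeFactors, Z < p then 1 else 0

lemma ff_mul (Z : ℕ) {d m : ℕ} (hd : d ≠ 0) (hm : m ≠ 0) : ff Z (d * m) = ff Z d * ff Z m := by
  unfold ff
  rw [Nat.primeFactors_mul hd hm]
  by_cases h1 : ∀ p ∈ d.primeFactors, Z < p
  · by_cases h2 : ∀ p ∈ m.primeFactors, Z < p
    · rw [if_pos h1, if_pos h2, if_pos, one_mul]
      intro p hp
      rcases mem_union.1 hp with h | h
      · exact h1 p h
      · exact h2 p h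
    · rw [if_neg h2, mul_zero, if_neg]
      exact fun h => h2 fun p hp => h p (mem_union_right _ hp)
  · rw [if_neg h1, zero_mul, if_neg]
    exact fun h => h1 fun p hp => h p (mem_union_left _ hp)

lemma norm_ff (Z n : ℕ) : ‖ff Z n‖ ≤ 1 := by
  unfold ff
  split_ifs <;> simp

lemma ff_zero_of {Z n : ℕ} (h1 : 1 < n) (h2 : n ≤ Z) : ff Z n = 0 := by
  unfold ff
  rw [if_neg]
  intro h
  have h3 := h n.minFac (Nat.mem_primeFactors.2 ⟨Nat.minFac_prime (by omega), Nat.minFac_dvd n, by omega⟩)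
  have h4 := Nat.minFac_le (show 0 < n by omega)
  omega

lemma ff_prime {Z p : ℕ} (hp : p.Prime) (h : Z < p) : ff Z p = 1 := by
  unfold ff
  rw [if_pos]
  intro r hr
  rw [hp.primeFactors, mem_singleton] at hr
  rw [hr]
  exact h

/-- the logarithm -/
lemma ff_log (Z : ℕ) {n : ℕ} (hn : 1 ≤ n) : ff Z n * (Real.log n : ℂ) =
    ∑ p ∈ n.divisorsAntidiagonal, ((ArithmeticFunction.vonMangoldt p.1 : ℝ) : ℂ) * ff Z p.1 * ff Z p.2 := by
  have h1 : ∀ p ∈ n.divisorsAntidiagonal, ((ArithmeticFunction.vonMangoldt p.1 : ℝ) : ℂ) * ff Z p.1 * ff Z p.2 =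
      ff Z n * ((ArithmeticFunction.vonMangoldt p.1 : ℝ) : ℂ) := by
    intro p hp
    obtain ⟨h2, h3⟩ := Nat.mem_divisorsAntidiagonal.1 hp
    have h4 : p.1 ≠ 0 := by
      intro h
      rw [h, zero_mul] at h2
      omega
    have h5 : p.2 ≠ 0 := by
      intro h
      rw [h, mul_zero] at h2
      omega
    rw [← h2, ff_mul Z h4 h5]
    ring
  rw [sum_congr rfl h1, ← mul_sum, ← Complex.ofReal_sum,
    Nat.sum_divisorsAntidiagonal (f := fun x _ => ArithmeticFunction.vonMangoldt x),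
    ArithmeticFunction.vonMangoldt_sum]

/-- rearrangement -/
lemma sum_anti {M : Type*} [AddCommMonoid M] (F : ℕ → ℕ → M) (y : ℕ) :
    ∑ n ∈ Icc 1 y, ∑ p ∈ n.divisorsAntidiagonal, F p.1 p.2 = ∑ m ∈ Icc 1 y, ∑ d ∈ Icc 1 (y / m), F d m := by
  rw [sum_sigma', sum_sigma']
  refine sum_nbij' (fun x => ⟨x.2.2, x.2.1⟩) (fun x => ⟨x.2 * x.1, (x.2, x.1)⟩) ?_ ?_ ?_ ?_ ?_
  · rintro ⟨n, d, m⟩ h
    simp only [mem_sigma, mem_Icc, Nat.mem_divisorsAntidiagonal] at h ⊢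
    obtain ⟨⟨h1, h2⟩, h3, h4⟩ := h
    have hd : 0 < d := by
      rcases Nat.eq_zero_or_pos d with h | h
      · rw [h, zero_mul] at h3
        omega
      · exact h
    have hm : 0 < m := by
      rcases Nat.eq_zero_or_pos m with h | h
      · rw [h, mul_zero] at h3
        omega
      · exact h
    have h5 : d * m ≤ y := by omega
    refine ⟨⟨hm, ?_⟩, hd, ?_⟩
    · nlinarith
    · rw [Nat.le_div_iff_mul_le hm]
      exact h5
  · rintro ⟨m, d⟩ h
    simp only [mem_sigma, mem_Icc, Nat.mem_divisorsAntidiagonal] at h ⊢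
    obtain ⟨⟨h1, h2⟩, h3, h4⟩ := h
    rw [Nat.le_div_iff_mul_le (by omega)] at h4
    have h5 : 0 < d * m := Nat.mul_pos (by omega) (by omega)
    exact ⟨⟨h5, h4⟩, trivial, by omega⟩
  · rintro ⟨n, d, m⟩ h
    simp only [mem_sigma, mem_Icc, Nat.mem_divisorsAntidiagonal] at h
    obtain ⟨-, h3, -⟩ := h
    simp only [h3]
  · rintro ⟨m, d⟩ _
    rfl
  · rintro ⟨n, d, m⟩ _
    rfl

/-- the inner sum -/
lemma inner_le {Z N : ℕ} {V : ℝ} (hV : 0 < V) {d : ℕ} (χ : DirichletCharacter ℂ d)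
    (hB : ∀ t : ℕ, Z ≤ t → t ≤ N → ‖∑ n ∈ Icc 1 t, cL χ n‖ ≤ t / V) {t : ℕ} (ht : t ≤ N) (hZ : 1 ≤ Z) :
    ‖∑ n ∈ Icc 1 t, cL χ n * ff Z n‖ ≤ if t ≤ Z then 0 else 2 * (t / V) + 2 * √t * Real.log t := by
  have hsmall : ∀ s : ℕ, s ≤ Z → ∑ n ∈ Icc 1 s, cL χ n * ff Z n = 0 := by
    intro s hs
    refine sum_eq_zero fun n hn => ?_
    rw [mem_Icc] at hn
    rcases Nat.eq_or_lt_of_le hn.1 with h | h
    · rw [← h]
      unfold cL
      simp
    · rw [ff_zero_of h (hn.2.trans hs), mul_zero]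
  split_ifs with h
  · rw [hsmall t h, norm_zero]
  · push Not at h
    have e1 : ∀ M : ℕ, Icc 1 M = Ioc 0 M := fun M => by ext n; simp [Nat.succ_le_iff]
    have hsp : ∀ f : ℕ → ℂ, ∑ n ∈ Icc 1 t, f n = ∑ n ∈ Icc 1 Z, f n + ∑ n ∈ Ioc Z t, f n := by
      intro f
      rw [e1, e1, Finset.sum_Ioc_consecutive f (Nat.zero_le _) h.le]
    have h1 := hsp (cL χ)
    rw [hsp (fun n => cL χ n * ff Z n), hsmall Z le_rfl, zero_add]
    have h2 : ∑ n ∈ Ioc Z t, cL χ n * ff Z n = ∑ n ∈ Icc 1 t, cL χ n - ∑ n ∈ Icc 1 Z, cL χ n +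
        ∑ n ∈ Ioc Z t, cL χ n * (ff Z n - 1) := by
      rw [h1]
      simp_rw [mul_sub, sum_sub_distrib, mul_one]
      ring
    have h3 : ‖∑ n ∈ Ioc Z t, cL χ n * (ff Z n - 1)‖ ≤ 2 * √t * Real.log t := by
      have ht1 : (1 : ℝ) ≤ t := by exact_mod_cast (by omega : 1 ≤ t)
      refine le_trans ?_ (Chebyshev.psi_sub_theta_le ht1)
      rw [Chebyshev.psi_sub_theta_eq_sum_not_prime, Nat.floor_natCast]
      refine (norm_sum_le _ _).trans ?_
      have h4 : ∀ n ∈ Ioc Z t, ‖cL χ n * (ff Z n - 1)‖ ≤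
          if ¬ n.Prime then ArithmeticFunction.vonMangoldt n else 0 := by
        intro n hn
        rw [mem_Ioc] at hn
        by_cases hp : n.Prime
        · rw [ff_prime hp hn.1, sub_self, mul_zero, norm_zero, if_neg (by simpa using hp)]
        · rw [if_pos hp]
          unfold cL
          rw [norm_mul, norm_mul, Complex.norm_real, Real.norm_of_nonneg ArithmeticFunction.vonMangoldt_nonneg]
          have h5 := χ.norm_le_one (n : ZMod d)
          have h6 : ‖ff Z n - 1‖ ≤ 1 := by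
            unfold ff
            split_ifs <;> simp
          have h7 := ArithmeticFunction.vonMangoldt_nonneg (n := n)
          calc ArithmeticFunction.vonMangoldt n * ‖χ (n : ZMod d)‖ * ‖ff Z n - 1‖ ≤
                ArithmeticFunction.vonMangoldt n * 1 * 1 := by gcongr
            _ = _ := by ring
      refine (sum_le_sum h4).trans ?_
      rw [← sum_filter]
      refine sum_le_sum_of_subset_of_nonneg ?_ fun _ _ _ => ArithmeticFunction.vonMangoldt_nonneg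
      intro n hn
      rw [mem_filter, mem_Ioc] at hn ⊢
      exact ⟨⟨by omega, hn.1.2⟩, hn.2⟩
    rw [h2]
    have h4 := hB t h.le ht
    have h5 := hB Z le_rfl (h.le.trans ht)
    have h6 : (Z : ℝ) / V ≤ t / V := by
      have : (Z : ℝ) ≤ t := by exact_mod_cast h.le
      gcongr
    calc _ ≤ ‖∑ n ∈ Icc 1 t, cL χ n - ∑ n ∈ Icc 1 Z, cL χ n‖ + ‖∑ n ∈ Ioc Z t, cL χ n * (ff Z n - 1)‖ :=
          norm_add_le _ _
      _ ≤ (‖∑ n ∈ Icc 1 t, cL χ n‖ + ‖∑ n ∈ Icc 1 Z, cL χ n‖) + ‖∑ n ∈ Ioc Z t, cL χ n * (ff Z n - 1)‖ := by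
          gcongr
          exact norm_sub_le _ _
      _ ≤ _ := by linarith

/-- the sum with the logarithm -/
lemma tlog_le {Z N : ℕ} {V : ℝ} (hV : 0 < V) {d : ℕ} (χ : DirichletCharacter ℂ d)
    (hB : ∀ t : ℕ, Z ≤ t → t ≤ N → ‖∑ n ∈ Icc 1 t, cL χ n‖ ≤ t / V) {y : ℕ} (hy : y ≤ N) (hZ : 1 ≤ Z) (hN : 1 ≤ N) :
    ‖∑ n ∈ Icc 1 y, ff Z n * (Real.log n : ℂ) * χ (n : ZMod d)‖ ≤
      N * (1 + Real.log N) * (2 / V + 2 * Real.log N / √Z) := by
  have hNr : (1 : ℝ) ≤ N := by exact_mod_cast hN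
  have hlN : 0 ≤ Real.log N := Real.log_nonneg hNr
  have hZr : (1 : ℝ) ≤ Z := by exact_mod_cast hZ
  have hZ0 : 0 < √(Z : ℝ) := Real.sqrt_pos.2 (by linarith)
  have h1 : ∑ n ∈ Icc 1 y, ff Z n * (Real.log n : ℂ) * χ (n : ZMod d) =
      ∑ m ∈ Icc 1 y, ff Z m * χ (m : ZMod d) * ∑ e ∈ Icc 1 (y / m), cL χ e * ff Z e := by
    have h2 : ∀ n ∈ Icc 1 y, ff Z n * (Real.log n : ℂ) * χ (n : ZMod d) =
        ∑ p ∈ n.divisorsAntidiagonal, (ff Z p.2 * χ (p.2 : ZMod d)) * (cL χ p.1 * ff Z p.1) := by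
      intro n hn
      rw [mem_Icc] at hn
      rw [ff_log Z hn.1, sum_mul]
      refine sum_congr rfl fun p hp => ?_
      obtain ⟨h2, h3⟩ := Nat.mem_divisorsAntidiagonal.1 hp
      unfold cL
      rw [← h2]
      push_cast
      rw [map_mul]
      ring
    rw [sum_congr rfl h2, sum_anti (fun a b => (ff Z b * χ (b : ZMod d)) * (cL χ a * ff Z a))]
    refine sum_congr rfl fun m _ => ?_
    rw [mul_sum]
  rw [h1]
  refine (norm_sum_le _ _).trans ?_
  have h2 : ∀ m ∈ Icc 1 y, ‖ff Z m * χ (m : ZMod d) * ∑ e ∈ Icc 1 (y / m), cL χ e * ff Z e‖ ≤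
      (N * (2 / V + 2 * Real.log N / √Z)) * (m : ℝ)⁻¹ := by
    intro m hm
    rw [mem_Icc] at hm
    have hm0 : (0 : ℝ) < m := by exact_mod_cast hm.1
    have ht : y / m ≤ N := (Nat.div_le_self y m).trans hy
    have h3 := inner_le hV χ hB ht hZ
    have h4 : ‖ff Z m * χ (m : ZMod d)‖ ≤ 1 := by
      rw [norm_mul]
      exact mul_le_one₀ (norm_ff Z m) (norm_nonneg _) (χ.norm_le_one _)
    rw [norm_mul]
    have h5 : (((y / m : ℕ)) : ℝ) ≤ N / m := by
      refine Nat.cast_div_le.trans ?_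
      have : (y : ℝ) ≤ N := by exact_mod_cast hy
      gcongr
    have h6 : ‖∑ e ∈ Icc 1 (y / m), cL χ e * ff Z e‖ ≤ (N * (2 / V + 2 * Real.log N / √Z)) * (m : ℝ)⁻¹ := by
      refine h3.trans ?_
      split_ifs with h
      · positivity
      · push Not at h
        obtain ⟨t, htd⟩ : ∃ t, t = y / m := ⟨_, rfl⟩
        rw [← htd] at h h5 ht ⊢
        have htZ : (Z : ℝ) ≤ t := by exact_mod_cast h.le
        have ht1 : (1 : ℝ) ≤ t := by linarith
        have hst : √(t : ℝ) ≤ t / √Z := by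
          rw [le_div_iff₀ hZ0]
          calc √(t : ℝ) * √Z ≤ √(t : ℝ) * √t := by
                have := Real.sqrt_le_sqrt htZ
                gcongr
            _ = t := Real.mul_self_sqrt (by linarith)
        have hlt : Real.log t ≤ Real.log N := Real.log_le_log (by linarith) (by exact_mod_cast ht)
        have hlt0 : 0 ≤ Real.log t := Real.log_nonneg ht1
        calc 2 * ((t : ℝ) / V) + 2 * √(t : ℝ) * Real.log t ≤ 2 * (t / V) + 2 * (t / √Z) * Real.log N := by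
              gcongr
          _ = t * (2 / V + 2 * Real.log N / √Z) := by ring
          _ ≤ (N / m) * (2 / V + 2 * Real.log N / √Z) := by gcongr
          _ = _ := by ring
    calc ‖ff Z m * χ (m : ZMod d)‖ * ‖∑ e ∈ Icc 1 (y / m), cL χ e * ff Z e‖ ≤
          1 * ((N * (2 / V + 2 * Real.log N / √Z)) * (m : ℝ)⁻¹) := by gcongr
      _ = _ := one_mul _
  refine (sum_le_sum h2).trans ?_
  rw [← mul_sum]
  have h3 : ∑ m ∈ Icc 1 y, (m : ℝ)⁻¹ ≤ 1 + Real.log N := by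
    have h4 : ∑ m ∈ Icc 1 y, (m : ℝ)⁻¹ ≤ ∑ m ∈ Icc 1 N, (m : ℝ)⁻¹ :=
      sum_le_sum_of_subset_of_nonneg (Icc_subset_Icc le_rfl hy) fun _ _ _ => by positivity
    have h5 := harmonic_le_one_add_log N
    have h6 : ((harmonic N : ℚ) : ℝ) = ∑ n ∈ Finset.Icc 1 N, (n : ℝ)⁻¹ := by
      rw [harmonic_eq_sum_Icc]
      push_cast
      rfl
    rw [h6] at h5
    exact h4.trans h5
  calc (N * (2 / V + 2 * Real.log N / √Z)) * ∑ m ∈ Icc 1 y, (m : ℝ)⁻¹ ≤
        (N * (2 / V + 2 * Real.log N / √Z)) * (1 + Real.log N) := by gcongr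
    _ = _ := by ring

/-- summation by parts -/
lemma abel_w {Z : ℕ} (c : ℕ → ℂ) (w : ℕ → ℝ) (y : ℕ) (hy : Z ≤ y) :
    ∑ n ∈ Ioc Z y, c n * (w n : ℂ) = (∑ n ∈ Ioc Z y, c n) * (w (y + 1) : ℂ) +
      ∑ n ∈ Ioc Z y, (∑ k ∈ Ioc Z n, c k) * ((w n - w (n + 1) : ℝ) : ℂ) := by
  induction y, hy using Nat.le_induction with
  | base => simp
  | succ y hy ih =>
    rw [Finset.sum_Ioc_succ_top (by omega), ih, Finset.sum_Ioc_succ_top (by omega : Z ≤ y),
      Finset.sum_Ioc_succ_top (by omega : Z ≤ y) (fun n => (∑ k ∈ Ioc Z n, c k) * ((w n - w (n + 1) : ℝ) : ℂ)),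
      Finset.sum_Ioc_succ_top (by omega : Z ≤ y)]
    push_cast
    ring

lemma abel_le {Z : ℕ} (c : ℕ → ℂ) (w : ℕ → ℝ) (y : ℕ) (hy : Z ≤ y) {M : ℝ}
    (hw : ∀ n, Z < n → w (n + 1) ≤ w n) (hw0 : ∀ n, Z < n → 0 ≤ w n)
    (hc : ∀ t, Z ≤ t → t ≤ y → ‖∑ n ∈ Ioc Z t, c n‖ ≤ M) :
    ‖∑ n ∈ Ioc Z y, c n * (w n : ℂ)‖ ≤ M * w (Z + 1) := by
  rw [abel_w c w y hy]
  have hM : 0 ≤ M := (norm_nonneg _).trans (hc y hy le_rfl)
  have htel : ∀ y, Z ≤ y → ∑ n ∈ Ioc Z y, (w n - w (n + 1)) = w (Z + 1) - w (y + 1) := by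
    intro y hy
    induction y, hy using Nat.le_induction with
    | base => simp
    | succ y hy ih =>
      rw [Finset.sum_Ioc_succ_top (by omega), ih]
      ring
  calc _ ≤ ‖(∑ n ∈ Ioc Z y, c n) * (w (y + 1) : ℂ)‖ +
        ‖∑ n ∈ Ioc Z y, (∑ k ∈ Ioc Z n, c k) * ((w n - w (n + 1) : ℝ) : ℂ)‖ := norm_add_le _ _
    _ ≤ M * w (y + 1) + ∑ n ∈ Ioc Z y, M * (w n - w (n + 1)) := by
        apply add_le_add
        · rw [norm_mul, Complex.norm_real, Real.norm_of_nonneg (hw0 _ (by omega))]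
          exact mul_le_mul_of_nonneg_right (hc y hy le_rfl) (hw0 _ (by omega))
        · refine norm_sum_le_of_le _ fun n hn => ?_
          rw [mem_Ioc] at hn
          have h1 : 0 ≤ w n - w (n + 1) := by
            have := hw n hn.1
            linarith
          rw [norm_mul, Complex.norm_real, Real.norm_of_nonneg h1]
          exact mul_le_mul_of_nonneg_right (hc n hn.1.le hn.2) h1
    _ = M * w (Z + 1) := by
        rw [← mul_sum, htel y hy]
        ring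

/-- the sum without the logarithm -/
lemma s_le {Z N : ℕ} {V : ℝ} (hV : 0 < V) {d : ℕ} (χ : DirichletCharacter ℂ d)
    (hB : ∀ t : ℕ, Z ≤ t → t ≤ N → ‖∑ n ∈ Icc 1 t, cL χ n‖ ≤ t / V) {y : ℕ} (hy : y ≤ N) (hZ : 3 ≤ Z) (hN : 1 ≤ N) :
    ‖∑ n ∈ Icc 1 y, ff Z n * χ (n : ZMod d)‖ ≤
      1 + N * (1 + Real.log N) * (2 / V + 2 * Real.log N / √Z) := by
  have hNr : (1 : ℝ) ≤ N := by exact_mod_cast hN
  have hlN : 0 ≤ Real.log N := Real.log_nonneg hNr
  have hX0 : 0 ≤ N * (1 + Real.log N) * (2 / V + 2 * Real.log N / √Z) := by positivity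
  have hsmall : ∀ s : ℕ, s ≤ Z → ‖∑ n ∈ Icc 1 s, ff Z n * χ (n : ZMod d)‖ ≤ 1 := by
    intro s hs
    rcases Nat.eq_zero_or_pos s with rfl | h
    · simp
    · rw [sum_eq_single 1]
      · rw [norm_mul]
        exact mul_le_one₀ (norm_ff Z 1) (norm_nonneg _) (χ.norm_le_one _)
      · intro n hn hne
        rw [mem_Icc] at hn
        rw [ff_zero_of (by omega) (hn.2.trans hs), zero_mul]
      · intro hn
        exact absurd (mem_Icc.2 ⟨le_rfl, h⟩) hn
  rcases le_total y Z with h | h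
  · have := hsmall y h
    linarith
  have e1 : ∀ M : ℕ, Icc 1 M = Ioc 0 M := fun M => by ext n; simp [Nat.succ_le_iff]
  have hsp : ∀ (f : ℕ → ℂ) (t : ℕ), Z ≤ t → ∑ n ∈ Icc 1 t, f n = ∑ n ∈ Icc 1 Z, f n + ∑ n ∈ Ioc Z t, f n := by
    intro f t ht
    rw [e1, e1, Finset.sum_Ioc_consecutive f (Nat.zero_le _) ht]
  rw [hsp _ y h]
  refine (norm_add_le _ _).trans (add_le_add (hsmall Z le_rfl) ?_)
  have hZl : 1 ≤ Real.log (Z + 1 : ℕ) := by
    rw [Real.le_log_iff_exp_le (by positivity)]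
    have h1 := Real.exp_one_lt_d9
    have h2 : (3 : ℝ) ≤ Z := by exact_mod_cast hZ
    push_cast
    linarith
  have h1 : ∑ n ∈ Ioc Z y, ff Z n * χ (n : ZMod d) =
      ∑ n ∈ Ioc Z y, (ff Z n * (Real.log n : ℂ) * χ (n : ZMod d)) * ((1 / Real.log n : ℝ) : ℂ) := by
    refine sum_congr rfl fun n hn => ?_
    rw [mem_Ioc] at hn
    have h2 : Real.log n ≠ 0 := by
      have : 0 < Real.log n := Real.log_pos (by exact_mod_cast (by omega : 1 < n))
      exact this.ne'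
    have h3 : (Real.log n : ℂ) ≠ 0 := by exact_mod_cast h2
    rw [Complex.ofReal_div, Complex.ofReal_one]
    generalize (Real.log n : ℂ) = w at h3 ⊢
    field_simp
  rw [h1]
  have h2 := abel_le (Z := Z) (fun n => ff Z n * (Real.log n : ℂ) * χ (n : ZMod d)) (fun n => 1 / Real.log n) y h
    (M := N * (1 + Real.log N) * (2 / V + 2 * Real.log N / √Z)) (by
      intro n hn
      have h3 : 0 < Real.log n := Real.log_pos (by exact_mod_cast (by omega : 1 < n))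
      apply one_div_le_one_div_of_le h3
      apply Real.log_le_log (by exact_mod_cast (by omega : 0 < n))
      push_cast
      linarith) (by
      intro n hn
      have h3 : 0 < Real.log n := Real.log_pos (by exact_mod_cast (by omega : 1 < n))
      positivity) (by
      intro t ht1 ht2
      have h4 := tlog_le hV χ hB (ht2.trans hy) (by omega) hN
      rw [hsp _ t ht1] at h4
      have h5 : ∑ n ∈ Icc 1 Z, ff Z n * (Real.log n : ℂ) * χ (n : ZMod d) = 0 := by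
        refine sum_eq_zero fun n hn => ?_
        rw [mem_Icc] at hn
        rcases Nat.eq_or_lt_of_le hn.1 with h | h
        · rw [← h]
          simp
        · rw [ff_zero_of h hn.2, zero_mul, zero_mul]
      rw [h5, zero_add] at h4
      exact h4)
  refine h2.trans ?_
  have h3 : 1 / Real.log (Z + 1 : ℕ) ≤ 1 := by
    rw [div_le_one (by linarith)]
    exact hZl
  calc _ ≤ N * (1 + Real.log N) * (2 / V + 2 * Real.log N / √Z) * 1 := by gcongr
    _ = _ := mul_one _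

lemma GG_eq (N n : ℕ) : GG N n = (Real.log N : ℂ) * ff (ZZ N) n := by
  unfold GG gr ff
  split_ifs <;> simp

/-- sums of `gr` twisted by characters to moduli with a small radical -/
theorem gg_small (T U : ℕ) : ∃ N₀ : ℕ, ∀ N : ℕ, N₀ ≤ N → ∀ (d : ℕ) [NeZero d], (d : ℝ) ≤ N →
    (rad d : ℝ) ≤ Real.log N ^ T → ∀ χ : DirichletCharacter ℂ d, χ ^ 2 ≠ 1 → ∀ y : ℕ, y ≤ N →
    ‖∑ n ∈ Icc 1 y, GG N n * χ (n : ZMod d)‖ ≤ N / Real.log N ^ U := by
  obtain ⟨m, hm, y0, hy0, hsums⟩ := sumsP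
  obtain ⟨a0, ha0⟩ := eventually_atTop.1 (psi57a hm (2 * m * (U + 4)))
  obtain ⟨y1, hy1⟩ : ∃ y1, y1 = max (max a0 y0) 1 := ⟨_, rfl⟩
  obtain ⟨a, ha⟩ := eventually_atTop.1 (Pool.Agent.T9h57.PK.ev_log ((T : ℝ) ^ 2) 2)
  obtain ⟨N₁, hN₁⟩ : ∃ N₀ : ℕ, ∀ N : ℕ, N₀ ≤ N → max (max (y1 ^ (2 * m)) a) 16 ≤ Real.log N := by
    have h1 := (Real.tendsto_log_atTop.comp tendsto_natCast_atTop_atTop).eventually_ge_atTop
      (max (max (y1 ^ (2 * m)) a) 16)
    exact eventually_atTop.1 h1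
  obtain ⟨N₂, hN₂⟩ := Filter.eventually_atTop.1 (Pool.Agent.Y614.GJ.Core.ev_log (U + 4) (s := 1 / 8) (by norm_num) 16)
  refine ⟨N₁ + N₂ + 1, fun N hN d _ hdN hrad χ hχ2 y hy => ?_⟩
  have hLb := hN₁ N (by omega)
  obtain ⟨-, hLp⟩ := hN₂ N (by omega)
  have hN1 : 1 ≤ N := by omega
  have hN0 : (0 : ℝ) < N := by exact_mod_cast hN1
  have hNr : (1 : ℝ) ≤ N := by exact_mod_cast hN1
  obtain ⟨L, hL⟩ : ∃ L, L = Real.log (N : ℝ) := ⟨_, rfl⟩
  rw [← hL] at hLb hrad hLp ⊢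
  have hL1 : y1 ^ (2 * m) ≤ L := (le_max_left _ _).trans ((le_max_left _ _).trans hLb)
  have hLa : a ≤ L := (le_max_right _ _).trans ((le_max_left _ _).trans hLb)
  have hL16 : 16 ≤ L := (le_max_right _ _).trans hLb
  have hL0 : 0 < L := by linarith
  have hLo : 1 ≤ L := by linarith
  have hd0 : 0 < d := NeZero.pos d
  -- the parameter
  obtain ⟨Y, hY⟩ : ∃ Y : ℝ, Y = L ^ (1 / (2 * m : ℕ) : ℝ) := ⟨_, rfl⟩
  have hm0 : (0 : ℝ) < ((2 * m : ℕ) : ℝ) := by
    have : 0 < 2 * m := by omega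
    exact_mod_cast this
  have hY2m : Y ^ (2 * m) = L := by
    rw [hY, ← Real.rpow_natCast, ← Real.rpow_mul hL0.le, one_div, inv_mul_cancel₀ hm0.ne', Real.rpow_one]
  have hY0 : 0 < Y := by rw [hY]; positivity
  have hy1o : 1 ≤ y1 := by rw [hy1]; exact le_max_right _ _
  have hY1 : y1 ≤ Y := by
    have h1 : y1 ^ (2 * m) ≤ Y ^ (2 * m) := by rw [hY2m]; exact hL1
    exact (pow_le_pow_iff_left₀ (by linarith) hY0.le (by omega)).1 h1
  have hYa : a0 ≤ Y := le_trans (by rw [hy1]; exact (le_max_left _ _).trans (le_max_left _ _)) hY1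
  have hYy : y0 ≤ Y := le_trans (by rw [hy1]; exact (le_max_right _ _).trans (le_max_left _ _)) hY1
  have hYm : (T : ℕ) * Real.log L ≤ Y ^ m := by
    have h1 := ha L hLa
    have h2 : ((T : ℝ) * Real.log L) ^ 2 ≤ (Y ^ m) ^ 2 := by
      rw [← pow_mul, mul_comm m 2, hY2m, mul_pow]
      exact h1
    have h3 : 0 ≤ Real.log L := Real.log_nonneg hLo
    exact (pow_le_pow_iff_left₀ (by positivity) (by positivity) two_ne_zero).1 h2
  have hk := ha0 Y hYa (hsums Y hYy) d (by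
    rw [hY2m, hL]
    exact Real.log_le_log (by exact_mod_cast hd0) hdN) (by
    refine (Real.log_le_log (by exact_mod_cast rad_pos _) hrad).trans ?_
    rw [Real.log_pow]
    exact hYm) χ hχ2
  obtain ⟨V, hV⟩ : ∃ V : ℝ, V = L ^ (U + 4) := ⟨_, rfl⟩
  have hV0 : 0 < V := by rw [hV]; positivity
  have hYV : Y ^ (2 * m * (U + 4)) = V := by rw [pow_mul, hY2m, hV]
  rw [hYV, hY2m] at hk
  obtain ⟨Z, hZ⟩ : ∃ Z, Z = ZZ N := ⟨_, rfl⟩
  have hexpN : (N : ℝ) = Real.exp L := by rw [hL, Real.exp_log hN0]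
  have hpw : ∀ s : ℝ, (N : ℝ) ^ s = Real.exp (s * L) := by
    intro s
    rw [Real.rpow_def_of_pos hN0, ← hL, mul_comm]
  have hZl : Real.exp (L / 4) ≤ Z := by
    have h1 := Nat.lt_floor_add_one ((N : ℝ) ^ (3 / 10 : ℝ))
    have h2 : (Z : ℝ) = (⌊(N : ℝ) ^ (3 / 10 : ℝ)⌋₊ : ℕ) := by rw [hZ]; rfl
    rw [← h2, hpw] at h1
    have h3 : Real.exp (3 / 10 * L) = Real.exp (L / 4) * Real.exp (L / 20) := by
      rw [← Real.exp_add]
      congr 1
      ring
    have h4 := Real.add_one_le_exp (L / 20)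
    have h5 := Real.add_one_le_exp (L / 4)
    rw [h3] at h1
    have h6 : Real.exp (L / 4) * (1 + 4 / 5) ≤ Real.exp (L / 4) * Real.exp (L / 20) := by
      apply mul_le_mul_of_nonneg_left _ (Real.exp_pos _).le
      linarith
    nlinarith
  have hZ5 : (5 : ℝ) ≤ Z := by
    have := Real.add_one_le_exp (L / 4)
    linarith
  have hZ3 : 3 ≤ Z := by
    have : (3 : ℝ) ≤ Z := by linarith
    exact_mod_cast this
  have hs := s_le (Z := Z) (N := N) hV0 χ (fun t ht1 ht2 => by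
    have ht1r : (Z : ℝ) ≤ t := by exact_mod_cast ht1
    have ht0 : (1 : ℝ) ≤ t := by linarith
    have h1 := hk t ht0 (by
      have h2 : Real.exp (L / 4) ≤ t := hZl.trans ht1r
      rw [← Real.le_log_iff_exp_le (by linarith)] at h2
      linarith) (by
      rw [hL]
      exact Real.log_le_log (by linarith) (by exact_mod_cast ht2))
    rwa [Nat.floor_natCast] at h1) hy hZ3 hN1
  rw [← hL] at hs
  have h1 : ∑ n ∈ Icc 1 y, GG N n * χ (n : ZMod d) = (L : ℂ) * ∑ n ∈ Icc 1 y, ff Z n * χ (n : ZMod d) := by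
    rw [mul_sum]
    refine sum_congr rfl fun n _ => ?_
    rw [GG_eq, ← hZ, hL]
    ring
  rw [h1, norm_mul, Complex.norm_real, Real.norm_of_nonneg hL0.le]
  have hsZ : (N : ℝ) ^ (1 / 8 : ℝ) ≤ √(Z : ℝ) := by
    rw [hpw]
    apply Real.le_sqrt_of_sq_le
    rw [← Real.exp_nat_mul]
    refine le_trans (le_of_eq ?_) hZl
    congr 1
    push_cast
    ring
  have hsZ0 : 0 < √(Z : ℝ) := Real.sqrt_pos.2 (by linarith)
  have hq : 2 / V + 2 * L / √Z ≤ 4 / L ^ (U + 3) := by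
    have h2 : 2 / V ≤ 2 / L ^ (U + 3) := by
      rw [hV]
      apply div_le_div_of_nonneg_left (by norm_num) (by positivity)
      exact pow_le_pow_right₀ hLo (by omega)
    have h3 : 2 * L / √Z ≤ 2 / L ^ (U + 3) := by
      rw [div_le_div_iff₀ hsZ0 (by positivity)]
      have h4 : L ^ (U + 4) ≤ √(Z : ℝ) := hLp.trans hsZ
      calc 2 * L * L ^ (U + 3) = 2 * L ^ (U + 4) := by ring
        _ ≤ 2 * √(Z : ℝ) := by linarith
    have h4 : (4 : ℝ) / L ^ (U + 3) = 2 / L ^ (U + 3) + 2 / L ^ (U + 3) := by ring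
    rw [h4]
    exact add_le_add h2 h3
  have hXU : 0 < (N : ℝ) / L ^ U := by positivity
  have h5 : L * (N * (1 + L) * (4 / L ^ (U + 3))) ≤ (N / L ^ U) / 2 := by
    calc L * (N * (1 + L) * (4 / L ^ (U + 3))) ≤ L * (N * (2 * L) * (4 / L ^ (U + 3))) := by
          gcongr
          linarith
      _ = (N / L ^ U) * (8 / L) := by
          rw [pow_add]
          field_simp
          ring
      _ ≤ (N / L ^ U) * (1 / 2) := by
          have : 8 / L ≤ 1 / 2 := by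
            rw [div_le_div_iff₀ hL0 (by norm_num)]
            linarith
          gcongr
      _ = _ := by ring
  have h6 : L * 1 ≤ (N / L ^ U) / 2 := by
    rw [div_div, le_div_iff₀ (by positivity)]
    have h7 : (N : ℝ) ^ (1 / 8 : ℝ) ≤ N := by
      calc (N : ℝ) ^ (1 / 8 : ℝ) ≤ (N : ℝ) ^ (1 : ℝ) := Real.rpow_le_rpow_of_exponent_le hNr (by norm_num)
        _ = N := Real.rpow_one _
    calc L * 1 * (L ^ U * 2) = 2 * L ^ (U + 1) := by ring
      _ ≤ L ^ 3 * L ^ (U + 1) := by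
          gcongr
          nlinarith [mul_pos hL0 hL0]
      _ = L ^ (U + 4) := by ring
      _ ≤ N := hLp.trans h7
  calc L * ‖∑ n ∈ Icc 1 y, ff Z n * χ (n : ZMod d)‖ ≤ L * (1 + N * (1 + L) * (2 / V + 2 * L / √Z)) := by gcongr
    _ ≤ L * (1 + N * (1 + L) * (4 / L ^ (U + 3))) := by gcongr
    _ = L * 1 + L * (N * (1 + L) * (4 / L ^ (U + 3))) := by ring
    _ ≤ N / L ^ U := by linarith

/-- the exceptional integers do not divide moduli with a small radical -/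
theorem d2_small (T C U : ℕ) {ρ : ℝ} (hρ : 0 < ρ) : ∃ N₀ : ℕ, ∀ N : ℕ, N₀ ≤ N → ∀ q : ℕ, 1 ≤ q →
    (rad q : ℝ) ≤ Real.log N ^ T → ∀ d ∈ Pool.Agent.R460.GR.D2 N U (T + C + 1) C ρ, ¬ d ∣ q := by
  classical
  obtain ⟨N₁, h1⟩ := gg_small (T + C) U
  obtain ⟨N₂, hN₂⟩ := Filter.eventually_atTop.1 (Pool.Agent.Y614.GJ.Core.ev_log 1 (s := 1) (by norm_num) 4)
  refine ⟨N₁ + N₂ + 1, fun N hN q hq1 hrad d hd hdq => ?_⟩
  have hN1 : 1 ≤ N := by omega
  have hNr : (1 : ℝ) ≤ N := by exact_mod_cast hN1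
  obtain ⟨hL4, -⟩ := hN₂ N (by omega)
  obtain ⟨L, hL⟩ : ∃ L, L = Real.log (N : ℝ) := ⟨_, rfl⟩
  rw [← hL] at hL4 hrad
  have hL0 : 0 < L := by linarith
  unfold Pool.Agent.R460.GR.D2 at hd
  rw [mem_image] at hd
  obtain ⟨⟨e, j⟩, he, rfl⟩ := hd
  rw [mem_product, mem_range] at he
  obtain ⟨he, hj⟩ := he
  simp only at he hj hdq
  unfold Pool.Agent.R460.GR.D1 at he
  rw [mem_filter, mem_Icc, ← hL] at he
  obtain ⟨⟨he1, heN⟩, he2, ψ, hb1, hb2, hb3, y, hy, hb4⟩ := he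
  have hjr : ((j + 1 : ℕ) : ℝ) ≤ L ^ C := by
    rw [← hL] at hj
    refine le_trans ?_ (Nat.floor_le (show 0 ≤ L ^ C by positivity))
    exact_mod_cast hj
  obtain ⟨g, hg⟩ : ∃ g, g = Nat.gcd e (j + 1) := ⟨_, rfl⟩
  rw [← hg] at hdq
  have hge : g ∣ e := by rw [hg]; exact Nat.gcd_dvd_left _ _
  have hgj : g ≤ j + 1 := by rw [hg]; exact Nat.gcd_le_right _ (Nat.succ_pos j)
  have hg0 : 0 < g := Nat.pos_of_dvd_of_pos hge he1
  have hrade : (rad e : ℝ) ≤ L ^ (T + C) := by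
    have h2 : e = e / g * g := (Nat.div_mul_cancel hge).symm
    have h3 : rad e ≤ rad q * (j + 1) := by
      calc rad e ≤ rad (e / g) * rad g := by
            conv_lhs => rw [h2]
            exact Pool.Agent.T9h57.PK.rad_mul_le _ _
        _ ≤ rad q * (j + 1) := by
            apply Nat.mul_le_mul
            · exact Nat.le_of_dvd (rad_pos _) (Pool.Agent.T9h57.PK.rad_dvd (by omega) hdq)
            · exact (Pool.Agent.T9h57.PK.rad_le hg0.ne').trans hgj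
    calc (rad e : ℝ) ≤ (rad q : ℝ) * ((j + 1 : ℕ) : ℝ) := by exact_mod_cast h3
      _ ≤ L ^ T * L ^ C := by gcongr
      _ = L ^ (T + C) := by rw [pow_add]
  haveI : NeZero e := ⟨by omega⟩
  by_cases hψ2 : ψ ^ 2 = 1
  · have h3 := Pool.Agent.T9h57.PK.quad_le (Pool.Agent.T9h57.PK.NT_of_primitive hb3) hψ2
    have h4 : (e : ℝ) ≤ 4 * (rad e : ℝ) := by exact_mod_cast h3
    have h5 : (e : ℝ) ≤ L ^ (T + C + 1) := by
      refine h4.trans ?_
      rw [pow_succ']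
      have : 0 ≤ (rad e : ℝ) := Nat.cast_nonneg _
      gcongr
    linarith
  · have h3 := h1 N (by omega) e (by exact_mod_cast heN) (by rw [← hL]; exact hrade) ψ hψ2 y hy
    linarith

end Pool.Agent.T9h57.GP
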