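import Pool.Agent.T9h57.GP.ErrQ
import Pool.Agent.T9h57.GP.Gg
import Pool.Agent.T9h57.GP.Conv

set_option autoImplicit false

/-! The number of exceptions in the residue classes of a regular modulus. Adapted from `R460/GR/D8`. -/

namespace Pool.Agent.T9h57.GP

open Finset
open Pool.Agent.H373R2.T7 (lamz Vz pz lamI lamzI Vz_pos)
open Pool.Agent.Y883.T3 (lsh)
open Pool.Agent.Y883.GJ
open Pool.Agent.R460.GS
open Pool.Agent.R460.GR (D2)
open Pool.Agent.H560R3.GB (sing)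
open Pool.Agent.Y614.GJ.Core (ev_log)
open Pool.Agent.Y883.T4 (badc class_le)

theorem gq_main (hErr : ErrQStm) (hWtb : WtbStm) (hWtd : WtdStm) (ρ : ℝ) (hρ : 0 < ρ) (A : ℕ) :
    ∃ C U₂ : ℕ, ∀ K : ℕ, ∃ N₀ : ℕ, ∀ N : ℕ, N₀ ≤ N →
      ∀ q : ℕ, 1 ≤ q → (q : ℝ) ≤ (N : ℝ) ^ (7 / 10 - ρ) → (∀ d ∈ D2 N U₂ K C (ρ / 2), ¬ d ∣ q) → ∀ a : ℕ,
        ((badc (WinL A) N q a).card : ℝ) ≤ (N : ℝ) / (q * Real.log N ^ A) := by
  classical
  obtain ⟨V, hV⟩ : ∃ V, V = 2 * A + 4 := ⟨_, rfl⟩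
  obtain ⟨C, U₂, hE⟩ := hErr (A + 3 * V + 8) (2 * V + 26) ρ hρ
  refine ⟨C, U₂, fun K => ?_⟩
  obtain ⟨B, hB⟩ := hE K
  obtain ⟨E1, hE1⟩ : ∃ E1, E1 = max B (V + 8) := ⟨_, rfl⟩
  obtain ⟨N₁, h1⟩ := hB (E1 + 1)
  obtain ⟨N₂, h2⟩ := grid_lower hWtb hWtd V E1 (by rw [hE1]; exact le_max_right _ _)
  obtain ⟨N₃, h3⟩ := windows_of_grid A
  obtain ⟨N₄, h4⟩ := Filter.eventually_atTop.1 (ev_log (V + A + 4) (s := 3 / 10) (by norm_num) 100)
  refine ⟨N₁ + N₂ + N₃ + N₄ + 3, fun N hN q hq1 hqN hqD a => ?_⟩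
  have hN1 : 1 ≤ N := by omega
  have hN0 : (0 : ℝ) < N := by exact_mod_cast hN1
  have hN1r : (1 : ℝ) ≤ N := by exact_mod_cast hN1
  obtain ⟨hL100, hLp⟩ := h4 N (by omega)
  have c1 := h1 N (by omega)
  have : NeZero q := ⟨by omega⟩
  have c2 := h2 N (by omega)
  have c3 := h3 N (by omega)
  obtain ⟨L, hLd⟩ : ∃ L, L = Real.log (N : ℝ) := ⟨_, rfl⟩
  rw [← hLd] at c1 c2 c3 hL100 hLp ⊢
  have hL0 : 0 < L := by linarith
  have hL1 : 1 ≤ L := by linarith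
  have hq0 : (0 : ℝ) < q := by exact_mod_cast hq1
  -- the parameter `z`
  obtain ⟨z, hz⟩ : ∃ z, z = ⌈L ^ E1⌉₊ := ⟨_, rfl⟩
  have hzlo : L ^ E1 ≤ z := by rw [hz]; exact Nat.le_ceil _
  have hL1B : 1 ≤ L ^ E1 := one_le_pow₀ hL1
  have hzhi : (z : ℝ) ≤ L ^ (E1 + 1) := by
    have := Nat.ceil_lt_add_one (show 0 ≤ L ^ E1 by positivity)
    rw [← hz] at this
    calc (z : ℝ) ≤ L ^ E1 + 1 := this.le
      _ ≤ L ^ E1 + L ^ E1 := by linarith
      _ = 2 * L ^ E1 := by ring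
      _ ≤ L * L ^ E1 := mul_le_mul_of_nonneg_right (by linarith) (by positivity)
      _ = L ^ (E1 + 1) := by ring
  have hzB : L ^ B ≤ z := (pow_le_pow_right₀ hL1 (by rw [hE1]; exact le_max_left _ _)).trans hzlo
  obtain ⟨r, hPar, hsum, hms⟩ := c1 z hzB hzhi
  have c2' := c2 z r hzlo hzhi hPar hsum
  -- the grid
  obtain ⟨Tg, hTg⟩ : ∃ Tg, Tg = ⌈L ^ V⌉₊ := ⟨_, rfl⟩
  have hT1 : L ^ V ≤ Tg := by rw [hTg]; exact Nat.le_ceil _
  have hLV : 1 ≤ L ^ V := one_le_pow₀ hL1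
  have hT2 : (Tg : ℝ) ≤ L ^ V + 1 := by
    rw [hTg]
    exact (Nat.ceil_lt_add_one (by positivity)).le
  have hTpos : 0 < Tg := by
    have : (0 : ℝ) < Tg := by linarith
    exact_mod_cast this
  obtain ⟨H, hH⟩ : ∃ H, H = N / Tg + 1 := ⟨_, rfl⟩
  have hH1 : 1 ≤ H := by rw [hH]; exact Nat.le_add_left 1 _
  have hpow1 : (N : ℝ) ^ (3 / 10 : ℝ) ≤ N := by
    calc (N : ℝ) ^ (3 / 10 : ℝ) ≤ (N : ℝ) ^ (1 : ℝ) := Real.rpow_le_rpow_of_exponent_le hN1r (by norm_num)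
      _ = N := Real.rpow_one _
  have hHr : (H : ℝ) ≤ 2 * (N / L ^ V) := by
    rw [hH]
    push_cast
    have e1 : ((N / Tg : ℕ) : ℝ) ≤ N / L ^ V := by
      calc ((N / Tg : ℕ) : ℝ) ≤ (N : ℝ) / Tg := Nat.cast_div_le
        _ ≤ N / L ^ V := div_le_div_of_nonneg_left hN0.le (by positivity) hT1
    have e2 : 1 ≤ (N : ℝ) / L ^ V := by
      rw [le_div_iff₀ (by positivity), one_mul]
      exact (pow_le_pow_right₀ hL1 (by omega)).trans (hLp.trans hpow1)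
    linarith
  have hjT : ∀ j : ℕ, j * H ≤ N → j < Tg + 1 := by
    intro j hj
    by_contra hcon
    have e1 : (Tg + 1) * H ≤ j * H := Nat.mul_le_mul_right _ (by omega)
    have e2 : N < Tg * H := by
      rw [hH]
      have := Nat.lt_mul_div_succ N hTpos
      exact this
    have e3 : Tg * H ≤ (Tg + 1) * H := Nat.mul_le_mul_right _ (by omega)
    omega
  -- the size of q
  have hqs : (q : ℝ) * L ^ (A + 1) ≤ N := by
    have e1 : (q : ℝ) ≤ (N : ℝ) ^ (7 / 10 : ℝ) :=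
      hqN.trans (Real.rpow_le_rpow_of_exponent_le hN1r (by linarith))
    have e2 : L ^ (A + 1) ≤ (N : ℝ) ^ (3 / 10 : ℝ) := (pow_le_pow_right₀ hL1 (by omega)).trans hLp
    calc (q : ℝ) * L ^ (A + 1) ≤ (N : ℝ) ^ (7 / 10 : ℝ) * (N : ℝ) ^ (3 / 10 : ℝ) := by gcongr
      _ = N := by rw [← Real.rpow_add hN0]; norm_num
  obtain ⟨Bd, hBd⟩ : ∃ Bd, Bd = badc (WinL A) N q a := ⟨_, rfl⟩
  rw [← hBd]
  have hmem : ∀ n ∈ Bd, 1 ≤ n ∧ n ≤ N ∧ 2 ∣ n ∧ n % q = a % q ∧ ¬ WinL A n := by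
    intro n hn
    rw [hBd] at hn
    unfold badc at hn
    rw [mem_filter, mem_Icc] at hn
    exact ⟨hn.1.1, hn.1.2, hn.2.1, hn.2.2.1, hn.2.2.2⟩
  obtain ⟨B1s, hB1s⟩ : ∃ B1s, B1s = Bd.filter (fun n : ℕ => (n : ℝ) < N / L ^ (A + 1)) := ⟨_, rfl⟩
  obtain ⟨B2s, hB2s⟩ : ∃ B2s, B2s = Bd.filter (fun n : ℕ => ¬ (n : ℝ) < N / L ^ (A + 1)) := ⟨_, rfl⟩
  have hcard : B1s.card + B2s.card = Bd.card := by
    rw [hB1s, hB2s]; exact card_filter_add_card_filter_not _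
  have hone : (1 : ℝ) ≤ N / (q * L ^ (A + 1)) := by rw [_root_.one_le_div (by positivity)]; exact hqs
  have hB1c : (B1s.card : ℝ) ≤ 2 * (N / (q * L ^ (A + 1))) := by
    have h3 := class_le N q a hq1 B1s (N / L ^ (A + 1)) (by positivity) (by
      intro n hn
      rw [hB1s, mem_filter] at hn
      obtain ⟨a1, a2, a3, a4, a5⟩ := hmem n hn.1
      exact ⟨a4, hn.2.le⟩)
    have e1 : (N : ℝ) / L ^ (A + 1) / q = N / (q * L ^ (A + 1)) := by rw [div_div, mul_comm]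
    rw [e1] at h3
    linarith
  -- the second part
  obtain ⟨J, hJ⟩ : ∃ J, J = (range (Tg + 1)).filter (fun j => j * H ≤ N) := ⟨_, rfl⟩
  have hterm : ∀ n ∈ B2s, ((N : ℝ) / L ^ (V + 2)) ^ 2 ≤ ∑ j ∈ J, Eq2 N z r n (j * H) := by
    intro n hn
    rw [hB2s, mem_filter, not_lt] at hn
    obtain ⟨a1, a2, a3, a4, a5⟩ := hmem n hn.1
    by_contra hcon
    rw [not_le] at hcon
    have hsm : ∀ j : ℕ, j * H < n → SmallE N z r n (j * H) (V + 2) := by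
      intro j hj
      by_contra hns
      have k1 := not_small hns (by rw [← hLd]; exact hL0)
      rw [← hLd] at k1
      have k2 : Eq2 N z r n (j * H) ≤ ∑ j ∈ J, Eq2 N z r n (j * H) := by
        refine single_le_sum (f := fun j => Eq2 N z r n (j * H)) (fun _ _ => Eq2_nn _ _ _ _ _) ?_
        rw [hJ, mem_filter, mem_range]
        exact ⟨hjT j (by omega), by omega⟩
      linarith
    have hS2 := (c2' n a2 a3 (by omega) 0 0 le_rfl (by omega) (by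
      have := hsm 0 (by omega)
      rwa [zero_mul] at this) (by
      have := hsm 0 (by omega)
      rwa [zero_mul] at this)).2
    apply a5
    rw [hV] at hHr
    refine c3 H hH1 hHr n a2 hn.2 hS2 ?_
    intro i j hij hj
    have hle : i * H ≤ j * H := Nat.mul_le_mul_right _ hij
    have := (c2' n a2 a3 (by omega) (i * H) (j * H) hle hj (hsm i (by omega)) (hsm j hj)).1
    rw [hV] at this
    exact this
  have hcls : ∀ n ∈ B2s, n ∈ (Icc 1 (2 * N)).filter (fun n : ℕ => (n : ZMod q) = (a : ZMod q)) := by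
    intro n hn
    rw [hB2s, mem_filter] at hn
    obtain ⟨a1, a2, a3, a4, a5⟩ := hmem n hn.1
    rw [mem_filter, mem_Icc]
    exact ⟨⟨a1, by omega⟩, (ZMod.natCast_eq_natCast_iff' n a q).2 a4⟩
  obtain ⟨R, hR⟩ : ∃ R : ℝ, R = (N : ℝ) ^ 3 / (q * L ^ (A + 3 * V + 8)) := ⟨_, rfl⟩
  have hR0 : 0 < R := by rw [hR]; positivity
  have hEsum : ∀ j ∈ J, ∑ n ∈ (Icc 1 (2 * N)).filter (fun n : ℕ => (n : ZMod q) = (a : ZMod q)),
      Eq2 N z r n (j * H) ≤ 4 * R := by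
    intro j hj
    rw [hJ, mem_filter] at hj
    unfold Eq2
    rw [sum_add_distrib, sum_add_distrib, sum_add_distrib]
    have k1 := hms LA (Or.inl rfl) q hqN hqD (a : ZMod q) (j * H) N hj.2 le_rfl
    have k2 := hms LA (Or.inl rfl) q hqN hqD (a : ZMod q) N (j * H) le_rfl hj.2
    have k3 := hms (GG N) (Or.inr (Or.inl rfl)) q hqN hqD (a : ZMod q) N (j * H) le_rfl hj.2
    have k4 := hms (HH N z r) (Or.inr (Or.inr rfl)) q hqN hqD (a : ZMod q) (j * H) N hj.2 le_rfl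
    rw [← hR] at k1 k2 k3 k4
    linarith
  have hJc : (J.card : ℝ) ≤ 3 * L ^ V := by
    have e1 : J.card ≤ Tg + 1 := by
      rw [hJ]
      exact (card_filter_le _ _).trans (card_range _).le
    have e2 : (J.card : ℝ) ≤ Tg + 1 := by exact_mod_cast e1
    linarith
  have hsum2 : (B2s.card : ℝ) * (N / L ^ (V + 2)) ^ 2 ≤ 12 * L ^ V * R := by
    calc (B2s.card : ℝ) * (N / L ^ (V + 2)) ^ 2 = ∑ _n ∈ B2s, ((N : ℝ) / L ^ (V + 2)) ^ 2 := by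
          rw [sum_const, nsmul_eq_mul]
      _ ≤ ∑ n ∈ B2s, ∑ j ∈ J, Eq2 N z r n (j * H) := sum_le_sum hterm
      _ ≤ ∑ n ∈ (Icc 1 (2 * N)).filter (fun n : ℕ => (n : ZMod q) = (a : ZMod q)),
          ∑ j ∈ J, Eq2 N z r n (j * H) :=
          sum_le_sum_of_subset_of_nonneg hcls fun n _ _ => sum_nonneg fun j _ => Eq2_nn _ _ _ _ _
      _ = ∑ j ∈ J, ∑ n ∈ (Icc 1 (2 * N)).filter (fun n : ℕ => (n : ZMod q) = (a : ZMod q)),
          Eq2 N z r n (j * H) := sum_comm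
      _ ≤ ∑ j ∈ J, 4 * R := sum_le_sum hEsum
      _ = (J.card : ℝ) * (4 * R) := by rw [sum_const, nsmul_eq_mul]
      _ ≤ (3 * L ^ V) * (4 * R) := by gcongr
      _ = _ := by ring
  have hB2c : (B2s.card : ℝ) ≤ N / (q * L ^ (A + 2)) := by
    have h4 : 12 * L ^ V * R ≤ (N / (q * L ^ (A + 2))) * (N / L ^ (V + 2)) ^ 2 := by
      have e1 : (N / (q * L ^ (A + 2))) * (N / L ^ (V + 2)) ^ 2 =
          (N : ℝ) ^ 3 / (q * L ^ (A + 3 * V + 8)) * (L ^ V * L ^ 2) := by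
        have e2 : L ^ (A + 3 * V + 8) = L ^ A * (L ^ V) ^ 3 * L ^ 8 := by
          rw [← pow_mul, ← pow_add, ← pow_add]
          congr 1
          ring
        rw [e2, pow_add, pow_add]
        have e0 : L ^ V ≠ 0 := by positivity
        have e3 : L ^ A ≠ 0 := by positivity
        generalize L ^ V = X at e0 ⊢
        generalize L ^ A = Y at e3 ⊢
        field_simp
      rw [e1, ← hR]
      have e4 : (12 : ℝ) ≤ L ^ 2 := by nlinarith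
      calc 12 * L ^ V * R = R * (L ^ V * 12) := by ring
        _ ≤ R * (L ^ V * L ^ 2) := by gcongr
    exact le_of_mul_le_mul_right (hsum2.trans h4) (by positivity)
  have h3 : (B1s.card : ℝ) + B2s.card = Bd.card := by exact_mod_cast hcard
  have h4 : (N : ℝ) / (q * L ^ (A + 1)) = N / (q * L ^ A) / L := by
    rw [pow_succ, ← mul_assoc, ← div_div]
  have h5 : (N : ℝ) / (q * L ^ (A + 2)) = N / (q * L ^ A) / L / L := by
    rw [pow_succ, pow_succ, ← mul_assoc, ← mul_assoc, ← div_div, ← div_div]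
  have h6 : 0 ≤ (N : ℝ) / (q * L ^ A) := by positivity
  have h7 : (N : ℝ) / (q * L ^ A) / L ≤ N / (q * L ^ A) / 100 := div_le_div_of_nonneg_left h6 (by norm_num) hL100
  have h8 : (N : ℝ) / (q * L ^ A) / L / L ≤ N / (q * L ^ A) / L := div_le_self (by positivity) hL1
  rw [h4] at hB1c
  rw [h5] at hB2c
  linarith

theorem errQ_all : ErrQStm :=
  errQ
    (Pool.Agent.R460.GR.core3 Pool.Agent.Y708.GJ.lift Pool.Agent.Y872.GJ.pars Pool.Agent.Y297.GJ.orth Pool.Agent.Y812.GJ.nonU)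
    (mG Pool.Agent.Y812.GJ.l2
      (bilMaj2 Pool.Agent.Y812.GJ.l2 (Pool.Agent.Y662.GJ.count Pool.Agent.Y812.GJ.l2))
      (tiMaj2 Pool.Agent.Y812.GJ.l2))
    (nG Pool.Agent.Y812.GJ.l2 Pool.Agent.Y909.GJ.bilMin Pool.Agent.Y412.GJ.tiMin)
    (Pool.Agent.R462.GS.mH (tiMaj2 Pool.Agent.Y812.GJ.l2) Pool.Agent.Y812.GJ.lsh_le
      Pool.Agent.R453.GS.wtb_all)
    (Pool.Agent.R462.GS.nH Pool.Agent.Y412.GJ.tiMin Pool.Agent.Y812.GJ.lsh_le Pool.Agent.R453.GS.wtb_all)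
    Pool.Agent.R453.GS.wtb_all Pool.Agent.R453.GS.apg_all Pool.Agent.Y883.GJ.model_all

/-- lower bounds in all residue classes of the moduli with a small radical -/
theorem sl_all (ρ : ℝ) (hρ : 0 < ρ) (A T : ℕ) :
    ∃ N₀ : ℕ, ∀ N : ℕ, N₀ ≤ N → ∀ q : ℕ, 1 ≤ q → (q : ℝ) ≤ (N : ℝ) ^ (7 / 10 - ρ) →
      (Pool.Agent.T9h57.PK.rad q : ℝ) ≤ Real.log N ^ T → ∀ a : ℕ,
        ((badc (WinL A) N q a).card : ℝ) ≤ (N : ℝ) / (q * Real.log N ^ A) := by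
  obtain ⟨C, U₂, h⟩ := gq_main errQ_all Pool.Agent.R453.GS.wtb_all Pool.Agent.R453.GS.wtd_all ρ hρ A
  obtain ⟨N₁, h1⟩ := h (T + C + 1)
  obtain ⟨N₂, h2⟩ := d2_small T C U₂ (ρ := ρ / 2) (by positivity)
  exact ⟨N₁ + N₂, fun N hN q hq1 hq hrad a => h1 N (by omega) q hq1 hq (h2 N (by omega) q hq1 hrad) a⟩

end Pool.Agent.T9h57.GP
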