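import Pool.Agent.T9h57.GP.Main
import Pool.Agent.T9h57.PK.Psi2
import Pool.Agent.T9h57.PK.Quad
import Pool.Agent.R460.GH.Asm

set_option autoImplicit false

/-! The moduli with a small radical are regular. -/

namespace Pool.Agent.T9h57.GP

open Finset Filter Topology
open Pool.Agent.R460.GS
open Pool.Agent.Y883.GJ
open Pool.Agent.Y883.T4 (badc class_le)
open Pool.Agent.T9h57.PK (rad rad_pos rad_mul_le rad_le cond_sq main57 cL ev_log)

/-- the moduli with a small radical are regular -/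
theorem reg_small (C T U : ℕ) : ∃ N₀ : ℕ, ∀ N : ℕ, N₀ ≤ N → ∀ q : ℕ, 1 ≤ q →
    (q : ℝ) * Real.log N ^ C ≤ N → (rad q : ℝ) ≤ Real.log N ^ T → RegL N C (T + C + 1) U q := by
  obtain ⟨m, hm, h⟩ := main57
  obtain ⟨y1, hy1, hmain⟩ := h (2 * m * U)
  obtain ⟨a, ha⟩ := eventually_atTop.1 (ev_log ((T + C : ℕ) ^ 2 : ℝ) 2)
  obtain ⟨N₀, hN₀⟩ : ∃ N₀ : ℕ, ∀ N : ℕ, N₀ ≤ N → max (max (y1 ^ (2 * m)) a) 4 ≤ Real.log N := by
    have h1 := (Real.tendsto_log_atTop.comp tendsto_natCast_atTop_atTop).eventually_ge_atTop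
      (max (max (y1 ^ (2 * m)) a) 4)
    exact eventually_atTop.1 h1
  refine ⟨N₀ + 1, fun N hN q hq1 hqC hrad j hj χ hχ y hy => ?_⟩
  have hLb := hN₀ N (by omega)
  have hN1 : 1 ≤ N := by omega
  have hN0 : (0 : ℝ) < N := by exact_mod_cast hN1
  obtain ⟨L, hL⟩ : ∃ L, L = Real.log (N : ℝ) := ⟨_, rfl⟩
  rw [← hL] at hLb hqC hrad hj hχ ⊢
  have hL1 : y1 ^ (2 * m) ≤ L := (le_max_left _ _).trans ((le_max_left _ _).trans hLb)
  have hLa : a ≤ L := (le_max_right _ _).trans ((le_max_left _ _).trans hLb)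
  have hL4 : 4 ≤ L := (le_max_right _ _).trans hLb
  have hL0 : 0 < L := by linarith
  have hLo : 1 ≤ L := by linarith
  have hd0 : 0 < (j + 1) * q := Nat.mul_pos (Nat.succ_pos j) hq1
  haveI : NeZero ((j + 1) * q) := ⟨hd0.ne'⟩
  have hradd : (rad ((j + 1) * q) : ℝ) ≤ L ^ (T + C) := by
    have h1 : rad ((j + 1) * q) ≤ (j + 1) * rad q :=
      (rad_mul_le _ _).trans (Nat.mul_le_mul_right _ (rad_le (Nat.succ_ne_zero j)))
    calc (rad ((j + 1) * q) : ℝ) ≤ ((j + 1 : ℕ) : ℝ) * (rad q : ℝ) := by exact_mod_cast h1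
      _ ≤ L ^ C * L ^ T := by gcongr
      _ = L ^ (T + C) := by rw [← pow_add, add_comm]
  have hχ2 : χ ^ 2 ≠ 1 := by
    intro h2
    have h3 := cond_sq χ h2
    have h4 : (χ.conductor : ℝ) ≤ 4 * (rad ((j + 1) * q) : ℝ) := by exact_mod_cast h3
    have h5 : (χ.conductor : ℝ) ≤ L ^ (T + C + 1) := by
      refine h4.trans ?_
      rw [pow_succ']
      have : 0 ≤ (rad ((j + 1) * q) : ℝ) := Nat.cast_nonneg _
      gcongr
    linarith
  -- the parameter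
  obtain ⟨Y, hY⟩ : ∃ Y : ℝ, Y = L ^ (1 / (2 * m : ℕ) : ℝ) := ⟨_, rfl⟩
  have hm0 : (0 : ℝ) < ((2 * m : ℕ) : ℝ) := by
    have : 0 < 2 * m := by omega
    exact_mod_cast this
  have hY2m : Y ^ (2 * m) = L := by
    rw [hY, ← Real.rpow_natCast, ← Real.rpow_mul hL0.le, one_div, inv_mul_cancel₀ hm0.ne', Real.rpow_one]
  have hY0 : 0 < Y := by rw [hY]; positivity
  have hY1 : y1 ≤ Y := by
    have h1 : y1 ^ (2 * m) ≤ Y ^ (2 * m) := by rw [hY2m]; exact hL1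
    exact (pow_le_pow_iff_left₀ (by linarith) hY0.le (by omega)).1 h1
  have hYm : (T + C : ℕ) * Real.log L ≤ Y ^ m := by
    have h1 := ha L hLa
    have h2 : (((T + C : ℕ) : ℝ) * Real.log L) ^ 2 ≤ (Y ^ m) ^ 2 := by
      rw [← pow_mul, mul_comm m 2, hY2m, mul_pow]
      exact h1
    have h3 : 0 ≤ Real.log L := Real.log_nonneg hLo
    exact (pow_le_pow_iff_left₀ (by positivity) (by positivity) two_ne_zero).1 h2
  rcases Nat.eq_zero_or_pos y with rfl | hy0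
  · simp only [show Icc 1 0 = (∅ : Finset ℕ) from rfl, sum_empty, norm_zero]
    positivity
  have hyr : (1 : ℝ) ≤ y := by exact_mod_cast hy0
  have hk := hmain Y hY1 ((j + 1) * q) (by
    rw [hY2m, hL]
    apply Real.log_le_log (by exact_mod_cast hd0)
    rw [Nat.cast_mul]
    calc ((j + 1 : ℕ) : ℝ) * q ≤ L ^ C * q := by gcongr
      _ = q * L ^ C := mul_comm _ _
      _ ≤ N := hqC) (by
    refine (Real.log_le_log (by exact_mod_cast rad_pos _) hradd).trans ?_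
    rw [Real.log_pow]
    exact hYm) χ hχ2 y hyr (by
    rw [hY2m, hL]
    exact Real.log_le_log (by linarith) (by exact_mod_cast hy))
  rw [Nat.floor_natCast, hY2m] at hk
  have e1 : Real.exp L = N := by rw [hL, Real.exp_log hN0]
  have e2 : Y ^ (2 * m * U) = L ^ U := by rw [pow_mul, hY2m]
  rw [e1, e2] at hk
  refine le_trans (le_of_eq ?_) hk
  rfl

theorem core3_all : Core3Stm :=
  core3 Pool.Agent.Y708.GJ.lift Pool.Agent.Y872.GJ.pars Pool.Agent.Y297.GJ.orth Pool.Agent.Y812.GJ.nonU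

theorem errG_all : ErrGStm :=
  err_G core3_all
    Pool.Agent.Y812.GJ.l2 (Pool.Agent.R460.GH.bilMaj3 Pool.Agent.Y812.GJ.l2 (Pool.Agent.R460.GH.countK Pool.Agent.Y812.GJ.l2))
    Pool.Agent.Y909.GJ.bilMin (tiMaj2 Pool.Agent.Y812.GJ.l2) Pool.Agent.Y412.GJ.tiMin
    Pool.Agent.Y812.GJ.lsh_le Pool.Agent.Y883.GJ.model_all

/-- the formula of Hardy and Littlewood in all windows, in all residue classes of the moduli with a small radical -/
theorem sm_all (ε : ℝ) (hε : 0 < ε) (ρ : ℝ) (hρ : 0 < ρ) (A W T : ℕ) :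
    ∃ N₀ : ℕ, ∀ N : ℕ, N₀ ≤ N → ∀ q : ℕ, 1 ≤ q → (q : ℝ) ≤ (N : ℝ) ^ (2 / 3 - ρ) →
      (rad q : ℝ) ≤ Real.log N ^ T → ∀ a : ℕ,
        ((badc (Pool.Agent.W93.PG.WinP ε W) N q a).card : ℝ) ≤ (N : ℝ) / (q * Real.log N ^ A) := by
  obtain ⟨C, U₂, h⟩ := gp_main errG_all ε hε ρ hρ A W
  obtain ⟨N₁, h1⟩ := h (T + C + 1)
  obtain ⟨N₂, h2⟩ := reg_small C T U₂
  obtain ⟨N₃, h3⟩ := Filter.eventually_atTop.1 (Pool.Agent.Y614.GJ.Core.ev_log C (s := 1 / 3) (by norm_num) 1)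
  refine ⟨N₁ + N₂ + N₃ + 1, fun N hN q hq1 hq hrad a => ?_⟩
  have hN1r : (1 : ℝ) ≤ N := by exact_mod_cast (by omega : 1 ≤ N)
  have hN0 : (0 : ℝ) < N := by linarith
  refine h1 N (by omega) q hq1 hq (h2 N (by omega) q hq1 ?_ hrad) a
  obtain ⟨-, h4⟩ := h3 N (by omega)
  calc (q : ℝ) * Real.log N ^ C ≤ (N : ℝ) ^ (2 / 3 : ℝ) * (N : ℝ) ^ (1 / 3 : ℝ) := by
        gcongr
        exact hq.trans (Real.rpow_le_rpow_of_exponent_le hN1r (by linarith))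
    _ = N := by rw [← Real.rpow_add hN0]; norm_num

end Pool.Agent.T9h57.GP
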